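import Pool.Agent.H61DW.Noeth
import Pool.Agent.DWX.Contract

/-! The ring `R` of global functions on a formal neighbourhood: weak completeness. -/

set_option autoImplicit false

open LaurentPolynomial

universe u

namespace Pool.Agent.H61DW

open Pool.Agent.DWC

variable {k : Type u} [Field k] {X : Nbhd k}

/-- the three ideals -/
noncomputable abbrev IC₀ (X : Nbhd k) : Ideal X.B₀ := X.I.comap (algebraMap X.B₀ X.B)
noncomputable abbrev IC₁ (X : Nbhd k) : Ideal X.B₁ := X.I.comap (algebraMap X.B₁ X.B)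
noncomputable abbrev mR (X : Nbhd k) : Ideal X.R := X.I.comap (algebraMap X.R X.B)

/-- what is used of a formal neighbourhood -/
structure Cpl (X : Nbhd k) : Prop where
  complete₀ : IsAdicComplete (IC₀ X) X.B₀
  complete₁ : IsAdicComplete (IC₁ X) X.B₁
  sep : ∀ b : X.B, (∀ n : ℕ, b ∈ X.I ^ n) → b = 0

lemma mem_mR {r : X.R} : r ∈ mR X ↔ X.res (r : X.B) = 0 := Nbhd.mem_I

/-- inclusion `R → B₀` -/
def toB₀ (X : Nbhd k) : X.R →+* X.B₀ := (Subalgebra.inclusion inf_le_left).toRingHom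

/-- inclusion `R → B₁` -/
def toB₁ (X : Nbhd k) : X.R →+* X.B₁ := (Subalgebra.inclusion inf_le_right).toRingHom

@[simp] lemma coe_toB₀ (r : X.R) : ((toB₀ X r : X.B₀) : X.B) = r := rfl

@[simp] lemma coe_toB₁ (r : X.R) : ((toB₁ X r : X.B₁) : X.B) = r := rfl

lemma toB₀_mem (n : ℕ) {r : X.R} (hr : r ∈ mR X ^ n) : toB₀ X r ∈ IC₀ X ^ n := by
  have h : (mR X).map (toB₀ X) ≤ IC₀ X := by
    rw [Ideal.map_le_iff_le_comap]
    intro r hr
    exact hr
  have h2 := Ideal.mem_map_of_mem (toB₀ X) hr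
  rw [Ideal.map_pow] at h2
  exact Ideal.pow_right_mono h n h2

lemma toB₁_mem (n : ℕ) {r : X.R} (hr : r ∈ mR X ^ n) : toB₁ X r ∈ IC₁ X ^ n := by
  have h : (mR X).map (toB₁ X) ≤ IC₁ X := by
    rw [Ideal.map_le_iff_le_comap]
    intro r hr
    exact hr
  have h2 := Ideal.mem_map_of_mem (toB₁ X) hr
  rw [Ideal.map_pow] at h2
  exact Ideal.pow_right_mono h n h2

lemma coe_mem₀ (n : ℕ) {b : X.B₀} (hb : b ∈ IC₀ X ^ n) : (b : X.B) ∈ X.I ^ n := by
  have h : (IC₀ X).map (algebraMap X.B₀ X.B) ≤ X.I := Ideal.map_comap_le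
  have h2 := Ideal.mem_map_of_mem (algebraMap X.B₀ X.B) hb
  rw [Ideal.map_pow] at h2
  exact Ideal.pow_right_mono h n h2

lemma coe_mem₁ (n : ℕ) {b : X.B₁} (hb : b ∈ IC₁ X ^ n) : (b : X.B) ∈ X.I ^ n := by
  have h : (IC₁ X).map (algebraMap X.B₁ X.B) ≤ X.I := Ideal.map_comap_le
  have h2 := Ideal.mem_map_of_mem (algebraMap X.B₁ X.B) hb
  rw [Ideal.map_pow] at h2
  exact Ideal.pow_right_mono h n h2

lemma coe_memR (n : ℕ) {b : X.R} (hb : b ∈ mR X ^ n) : (b : X.B) ∈ X.I ^ n :=
  coe_mem₀ n (toB₀_mem n hb)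

/-- limits of series in a complete ring -/
lemma exists_sum {A : Type*} [CommRing A] (I : Ideal A) [IsAdicComplete I A] (c : ℕ → A)
    (hc : ∀ i, c i ∈ I ^ i) : ∃ L : A, ∀ n, L - ∑ i ∈ Finset.range n, c i ∈ I ^ n := by
  obtain ⟨L, hL⟩ := IsPrecomplete.prec (I := I) (M := A) inferInstance
    (f := fun n => ∑ i ∈ Finset.range n, c i) (by
      intro m n hmn
      rw [SModEq.sub_mem, smul_eq_mul, Ideal.mul_top]
      have h := Finset.sum_range_add_sum_Ico c hmn
      rw [← h, sub_add_cancel_left, neg_mem_iff]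
      refine sum_mem fun i hi => ?_
      exact Ideal.pow_le_pow_right (Finset.mem_Ico.1 hi).1 (hc i))
  refine ⟨L, fun n => ?_⟩
  have := hL n
  rw [SModEq.sub_mem, smul_eq_mul, Ideal.mul_top] at this
  rw [← neg_mem_iff, neg_sub]
  exact this

/-- `L` is the sum of the series `c` in `B` -/
def WS (X : Nbhd k) (c : ℕ → X.B) (L : X.B) : Prop :=
  ∀ n, L - ∑ i ∈ Finset.range n, c i ∈ X.I ^ n

lemma WS.unique (hX : Cpl X) {c : ℕ → X.B} {L L' : X.B} (h : WS X c L) (h' : WS X c L') :
    L = L' := by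
  rw [← sub_eq_zero]
  apply hX.sep
  intro n
  have := sub_mem (h n) (h' n)
  rwa [sub_sub_sub_cancel_right] at this

lemma WS.add {c c' : ℕ → X.B} {L L' : X.B} (h : WS X c L) (h' : WS X c' L') :
    WS X (fun i => c i + c' i) (L + L') := by
  intro n
  rw [Finset.sum_add_distrib, add_sub_add_comm]
  exact add_mem (h n) (h' n)

lemma WS.mul {c : ℕ → X.B} {L : X.B} (b : X.B) (h : WS X c L) :
    WS X (fun i => b * c i) (b * L) := by
  intro n
  rw [← Finset.mul_sum, ← mul_sub]
  exact Ideal.mul_mem_left _ _ (h n)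

lemma WS.sum {ι : Type*} (s : Finset ι) {c : ι → ℕ → X.B} {L : ι → X.B}
    (h : ∀ j ∈ s, WS X (c j) (L j)) : WS X (fun i => ∑ j ∈ s, c j i) (∑ j ∈ s, L j) := by
  intro n
  rw [Finset.sum_comm, ← Finset.sum_sub_distrib]
  exact sum_mem fun j hj => h j hj n

lemma exists_WS₀ (hX : Cpl X) (c : ℕ → X.B₀) (hc : ∀ i, c i ∈ IC₀ X ^ i) :
    ∃ L : X.B₀, WS X (fun i => (c i : X.B)) L := by
  have := hX.complete₀
  obtain ⟨L, hL⟩ := exists_sum (IC₀ X) c hc
  refine ⟨L, fun n => ?_⟩
  have h := coe_mem₀ n (hL n)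
  push_cast at h
  exact h

lemma exists_WS₁ (hX : Cpl X) (c : ℕ → X.B₁) (hc : ∀ i, c i ∈ IC₁ X ^ i) :
    ∃ L : X.B₁, WS X (fun i => (c i : X.B)) L := by
  have := hX.complete₁
  obtain ⟨L, hL⟩ := exists_sum (IC₁ X) c hc
  refine ⟨L, fun n => ?_⟩
  have h := coe_mem₁ n (hL n)
  push_cast at h
  exact h

lemma exists_WS (hX : Cpl X) (c : ℕ → X.R) (hc : ∀ i, c i ∈ mR X ^ i) :
    ∃ L : X.R, WS X (fun i => (c i : X.B)) L := by
  obtain ⟨L₀, h₀⟩ := exists_WS₀ hX (fun i => toB₀ X (c i)) (fun i => toB₀_mem i (hc i))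
  obtain ⟨L₁, h₁⟩ := exists_WS₁ hX (fun i => toB₁ X (c i)) (fun i => toB₁_mem i (hc i))
  have h : (L₀ : X.B) = L₁ := WS.unique hX h₀ h₁
  exact ⟨⟨L₀, L₀.2, by rw [h]; exact L₁.2⟩, h₀⟩

/-- the sum of a series with terms in the powers of a finitely generated ideal -/
lemma WS_mem (hX : Cpl X) {H : Ideal (X.R)} (hH : H ≤ mR X) (hfg : H.FG) (N : ℕ) :
    ∀ (c : ℕ → X.R), (∀ i, c i ∈ H ^ (i + N)) → ∀ L : X.R,
      WS X (fun i => (c i : X.B)) L → L ∈ H ^ N := by
  obtain ⟨s, g, hg⟩ := Submodule.fg_iff_exists_fin_generating_family.1 hfg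
  induction N with
  | zero => intro c _ L _; simp
  | succ N ih =>
    intro c hc L hL
    have hdiv' : ∀ (m : ℕ) (x : X.R), x ∈ H ^ (m + 1) →
        ∃ d : Fin s → X.R, (∀ j, d j ∈ H ^ m) ∧ x = ∑ j, g j * d j := by
      intro m x hx
      rw [pow_succ'] at hx
      refine Submodule.mul_induction_on hx ?_ ?_
      · intro r hr y hy
        rw [← hg] at hr
        obtain ⟨a, rfl⟩ := (Submodule.mem_span_range_iff_exists_fun _).1 hr
        refine ⟨fun j => a j * y, fun j => Ideal.mul_mem_left _ _ hy, ?_⟩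
        rw [Finset.sum_mul]
        refine Finset.sum_congr rfl fun j _ => ?_
        rw [smul_eq_mul]; ring
      · rintro _ _ ⟨a, ha, rfl⟩ ⟨b, hb, rfl⟩
        refine ⟨fun j => a j + b j, fun j => add_mem (ha j) (hb j), ?_⟩
        rw [← Finset.sum_add_distrib]
        exact Finset.sum_congr rfl fun j _ => (mul_add _ _ _).symm
    have hdiv : ∀ i, ∃ d : Fin s → X.R, (∀ j, d j ∈ H ^ (i + N)) ∧ c i = ∑ j, g j * d j :=
      fun i => hdiv' (i + N) (c i) (hc i)
    choose d hd hcd using hdiv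
    have hL' : ∀ j, ∃ M : X.R, WS X (fun i => (d i j : X.B)) M := fun j =>
      exists_WS hX (fun i => d i j) (fun i =>
        Ideal.pow_right_mono hH i (Ideal.pow_le_pow_right (Nat.le_add_right i N) (hd i j)))
    choose M hM using hL'
    have hMm : ∀ j, M j ∈ H ^ N := fun j => ih (fun i => d i j) (fun i => hd i j) (M j) (hM j)
    have h2 : WS X (fun i => (c i : X.B)) ((∑ j, g j * M j : X.R) : X.B) := by
      have h3 : WS X (fun i => ∑ j, (g j : X.B) * (d i j : X.B)) (∑ j, (g j : X.B) * (M j : X.B)) :=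
        WS.sum _ fun j _ => (hM j).mul _
      have h4 : (fun i => (c i : X.B)) = fun i => ∑ j, (g j : X.B) * (d i j : X.B) := by
        funext i
        rw [hcd i]
        push_cast
        rfl
      rw [h4]
      push_cast
      exact h3
    have h5 : L = ∑ j, g j * M j := Subtype.ext (WS.unique hX hL h2)
    rw [h5, pow_succ']
    refine sum_mem fun j _ => Ideal.mul_mem_mul ?_ (hMm j)
    rw [← hg]; exact Submodule.subset_span ⟨j, rfl⟩

/-- `R` is complete for every finitely generated ideal of functions vanishing on `C`. -/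
theorem isAdicComplete_of_fg (hX : Cpl X) {H : Ideal (X.R)} (hH : H ≤ mR X) (hfg : H.FG) :
    IsAdicComplete H (X.R) where
  haus' := by
    intro r hr
    apply Subtype.ext
    apply hX.sep
    intro n
    have := hr n
    rw [SModEq.zero, smul_eq_mul, Ideal.mul_top] at this
    exact coe_memR n (Ideal.pow_right_mono hH n this)
  prec' := by
    intro f hf
    have hd : ∀ i, f (i + 1) - f i ∈ H ^ i := by
      intro i
      have := hf (Nat.le_succ i)
      rw [SModEq.sub_mem, smul_eq_mul, Ideal.mul_top] at this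
      rw [← neg_mem_iff, neg_sub]
      exact this
    obtain ⟨L, hL⟩ := exists_WS hX (fun i => f (i + 1) - f i)
      (fun i => Ideal.pow_right_mono hH i (hd i))
    refine ⟨L + f 0, fun n => ?_⟩
    rw [SModEq.sub_mem, smul_eq_mul, Ideal.mul_top]
    have key : WS X (fun i => ((f (i + n + 1) - f (i + n) : X.R) : X.B))
        ((L + f 0 - f n : X.R) : X.B) := by
      intro m
      have h1 := hL (m + n)
      have h2 : ∑ i ∈ Finset.range (m + n), ((f (i + 1) - f i : X.R) : X.B) =
          (f (m + n) : X.B) - f 0 := by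
        have := Finset.sum_range_sub (fun i => (f i : X.B)) (m + n)
        push_cast
        exact this
      have h3 : ∑ i ∈ Finset.range m, ((f (i + n + 1) - f (i + n) : X.R) : X.B) =
          (f (m + n) : X.B) - f n := by
        have := Finset.sum_range_sub (fun i => (f (i + n) : X.B)) m
        rw [zero_add] at this
        push_cast
        rw [← this]
        refine Finset.sum_congr rfl fun i _ => ?_
        rw [show i + n + 1 = i + 1 + n by ring]
      rw [h3]
      rw [h2] at h1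
      have h4 : ((L + f 0 - f n : X.R) : X.B) - ((f (m + n) : X.B) - f n) =
          (L : X.B) - ((f (m + n) : X.B) - f 0) := by
        push_cast; ring
      rw [h4]
      exact Ideal.pow_le_pow_right (Nat.le_add_right m n) h1
    have := WS_mem hX hH hfg n (fun i => f (i + n + 1) - f (i + n)) (fun i => hd (i + n)) _ key
    rw [← neg_mem_iff, neg_sub]
    exact this

/-- **R3, R2**: if the ideal of the global functions which vanish on `C` is finitely generated and
`R` modulo this ideal is `k`, then `R` is noetherian and complete. -/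
theorem ring_of_fg (hX : Cpl X) (residue : ∀ r ∈ X.R, ∃ a : k, X.res r = C a)
    (hfg : (mR X).FG) : IsNoetherianRing X.R ∧ IsAdicComplete (mR X) X.R := by
  have hc : IsAdicComplete (mR X) X.R := isAdicComplete_of_fg hX le_rfl hfg
  refine ⟨isNoetherianRing_of_surjective_mk (A := k) (mR X) hfg fun r => ?_, hc⟩
  obtain ⟨a, ha⟩ := residue r r.2
  refine ⟨a, ?_⟩
  rw [mem_mR]
  change X.res ((r : X.B) - algebraMap k X.B a) = 0
  rw [map_sub, ha, AlgHom.commutes]
  exact sub_self _

end Pool.Agent.H61DW
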