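import Mathlib

/-! A ring which is complete for the topology of a finitely generated ideal with noetherian
quotient is noetherian. -/

set_option autoImplicit false

namespace Pool.Agent.H61DW

open MvPolynomial

/-- `R` is `I`-adically complete, `I` is finitely generated and a noetherian ring `A` maps onto
`R / I` through `R`: then `R` is noetherian. -/
theorem isNoetherianRing_of_surjective_mk {A R : Type*} [CommRing A] [IsNoetherianRing A]
    [CommRing R] [Algebra A R] (I : Ideal R) [IsAdicComplete I R] (hfg : I.FG)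
    (hs : ∀ r : R, ∃ a : A, r - algebraMap A R a ∈ I) : IsNoetherianRing R := by
  obtain ⟨n, h, hh⟩ := Submodule.fg_iff_exists_fin_generating_family.1 hfg
  have hhmem : ∀ i, h i ∈ I := fun i => by
    rw [← hh]; exact Submodule.subset_span ⟨i, rfl⟩
  let ψ : MvPolynomial (Fin n) A →+* R := (MvPolynomial.aeval h).toRingHom
  have hψX : ∀ i, ψ (X i) = h i := fun i => MvPolynomial.aeval_X h i
  have hψC : ∀ a, ψ (C a) = algebraMap A R a := fun a => MvPolynomial.aeval_C h a
  have hψ1 : (idealOfVars (Fin n) A).map ψ ≤ I := by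
    rw [idealOfVars, Ideal.map_span, Ideal.span_le]
    rintro _ ⟨_, ⟨i, rfl⟩, rfl⟩
    rw [hψX]
    exact hhmem i
  have hψ : ∀ N, idealOfVars (Fin n) A ^ N ≤ (I ^ N).comap ψ := by
    intro N
    rw [← Ideal.map_le_iff_le_comap, Ideal.map_pow]
    exact Ideal.pow_right_mono hψ1 N
  let f (N : ℕ) : MvPowerSeries (Fin n) A →+* R ⧸ I ^ N :=
    (Ideal.quotientMap (I ^ N) ψ (hψ N)).comp
      (MvPowerSeries.truncTotalAlgHom (Fin n) A N : _ →+* _)
  have hfapp : ∀ N p, f N p = Ideal.Quotient.mk (I ^ N) (ψ (MvPowerSeries.truncTotal N p)) :=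
    fun N p => rfl
  have hf : ∀ {m N : ℕ} (hle : m ≤ N),
      (Ideal.Quotient.factorPow I hle).comp (f N) = f m := by
    intro m N hle
    ext p
    rw [RingHom.comp_apply, hfapp, hfapp]
    change Ideal.Quotient.mk (I ^ m) _ = _
    rw [Ideal.Quotient.eq, ← map_sub]
    exact hψ m (MvPowerSeries.truncTotal_sub_truncTotal_mem_pow_idealOfVars hle le_rfl p)
  let F : MvPowerSeries (Fin n) A →+* R := IsAdicComplete.liftRingHom I f hf
  have hF : ∀ N p, Ideal.Quotient.mk (I ^ N) (F p) = f N p := fun N p =>
    IsAdicComplete.mk_liftRingHom I f hf N p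
  have hFψ : ∀ p : MvPolynomial (Fin n) A, F (p : MvPowerSeries (Fin n) A) = ψ p := by
    intro p
    rw [← sub_eq_zero]
    apply IsHausdorff.haus (I := I) (M := R) inferInstance
    intro N
    rw [SModEq.zero, smul_eq_mul, Ideal.mul_top, ← Ideal.Quotient.eq_zero_iff_mem, map_sub, hF,
      sub_eq_zero, hfapp, Ideal.Quotient.eq, ← map_sub]
    refine hψ N ((MvPolynomial.mem_pow_idealOfVars_iff' ..).mpr fun x hx => ?_)
    rw [MvPolynomial.coeff_sub, MvPowerSeries.coeff_truncTotal _ hx, MvPolynomial.coeff_coe,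
      sub_self]
  let K : Ideal (MvPowerSeries (Fin n) A) := .span (.range MvPowerSeries.X)
  have hK : K.map F = I := by
    rw [Ideal.map_span, ← Set.range_comp, ← hh]
    congr 2
    funext i
    change F (MvPowerSeries.X i) = h i
    rw [← MvPolynomial.coe_X, hFψ, hψX]
  have : IsHausdorff (K.map F) R := by rw [hK]; infer_instance
  have hsurj : Function.Surjective F := by
    apply surjective_of_mk_map_comp_surjective (I := K)
    intro y
    obtain ⟨r, rfl⟩ := Ideal.Quotient.mk_surjective y
    obtain ⟨a, ha⟩ := hs r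
    refine ⟨((C a : MvPolynomial (Fin n) A) : MvPowerSeries (Fin n) A), ?_⟩
    rw [RingHom.comp_apply, hFψ, hψC, eq_comm, Ideal.Quotient.eq, hK]
    exact ha
  exact isNoetherianRing_of_surjective _ _ F hsurj

/-- A ring which is complete for the topology of a finitely generated ideal, with quotient of
finite type over a noetherian ring, is noetherian. -/
theorem isNoetherianRing_of_isAdicComplete {A R : Type*} [CommRing A] [IsNoetherianRing A]
    [CommRing R] [Algebra A R] (I : Ideal R) [IsAdicComplete I R] (hfg : I.FG)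
    [Algebra.FiniteType A (R ⧸ I)] : IsNoetherianRing R := by
  obtain ⟨m, g, hg⟩ := Algebra.FiniteType.iff_quotient_mvPolynomial''.1
    (inferInstance : Algebra.FiniteType A (R ⧸ I))
  choose r hr using fun i => Ideal.Quotient.mk_surjective (g (X i))
  let _ : Algebra (MvPolynomial (Fin m) A) R := (MvPolynomial.aeval r).toAlgebra
  have hal : ∀ p : MvPolynomial (Fin m) A, algebraMap (MvPolynomial (Fin m) A) R p =
    MvPolynomial.aeval r p := fun p => rfl
  refine isNoetherianRing_of_surjective_mk (A := MvPolynomial (Fin m) A) I hfg fun x => ?_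
  obtain ⟨p, hp⟩ := hg (Ideal.Quotient.mk I x)
  refine ⟨p, ?_⟩
  rw [← Ideal.Quotient.eq, ← hp, hal]
  have h2 : g = (Ideal.Quotient.mkₐ A I).comp (MvPolynomial.aeval r) := by
    apply MvPolynomial.algHom_ext
    intro i
    rw [AlgHom.comp_apply, MvPolynomial.aeval_X, Ideal.Quotient.mkₐ_eq_mk, hr]
  rw [h2]
  rfl

end Pool.Agent.H61DW
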